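import Pool.Agent.Q265.KB.Tw
import Pool.Agent.TH894.NE4

/-!
# The counts of the Koblitz problem for almost all quadratic twists of a curve, and for almost all curves

For every elliptic curve `E : y² = x³ + A x + B` the counts `π_{E_D,t}(x)` of the problem are, for all but at most
`N^(1-c)` of the twists `|D| ≤ N`, for ALL `t ≥ 1` and ALL `x` between a power of `log N` and `N^c` at the same time, the
mean of the two numbers of primes `p ≤ x` for which `(p + 1 - a_p(E)) / t`, respectively `(p + 1 + a_p(E)) / t`, is prime,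
with an error of about the square root. For almost all curves which arise from an arbitrary pair of coefficients by
changing a few digits, the counts are, again for all `t` and `x` at once, given by the sum over `p ≤ x` of the proportion of
the curves modulo `p` with `#E(F_p) / t` prime, with the square root of this sum as error.
-/

set_option autoImplicit false

namespace Pool.Agent.Results.MP_b89fd0_nt.AlmostAllTwistsAndCurves

open Finset

/-- the number of solutions of `y² = x³ + A x + B` modulo `p`; for good `p` the curve has `pts p A B + 1` points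
over the field with `p` elements -/
def pts (p : ℕ) (A B : ℤ) : ℕ :=
  ((range p ×ˢ range p).filter
    (fun xy : ℕ × ℕ => (p : ℤ) ∣ (xy.2 : ℤ) ^ 2 - ((xy.1 : ℤ) ^ 3 + A * xy.1 + B))).card

/-- `p` does not divide `2 (4 A³ + 27 B²)`, and the number of points of `y² = x³ + A x + B` over the field with `p`
elements is `t` times a prime number -/
def Kob (A B : ℤ) (t p : ℕ) : Prop :=
  ¬ (p : ℤ) ∣ 2 * (4 * A ^ 3 + 27 * B ^ 2) ∧ ∃ q : ℕ, q.Prime ∧ pts p A B + 1 = t * q

/-- the same for the number `2 p + 2 - #E(F_p)` of points of the nontrivial quadratic twist modulo `p` -/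
def KobOpp (A B : ℤ) (t p : ℕ) : Prop :=
  ¬ (p : ℤ) ∣ 2 * (4 * A ^ 3 + 27 * B ^ 2) ∧ ∃ q : ℕ, q.Prime ∧ 2 * p + 2 = (pts p A B + 1) + t * q

open Classical in
/-- the number of primes `p ≤ x` with `Kob A B t p`: the count `π_{E,t}(x)` -/
noncomputable def kob (A B : ℤ) (t x : ℕ) : ℕ := ((range (x + 1)).filter (fun p => p.Prime ∧ Kob A B t p)).card

open Classical in
/-- the number of primes `p ≤ x` with `KobOpp A B t p` -/
noncomputable def kobOpp (A B : ℤ) (t x : ℕ) : ℕ :=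
  ((range (x + 1)).filter (fun p => p.Prime ∧ KobOpp A B t p)).card

open Classical in
/-- The sum over the primes `p ≤ x` of the proportion of the pairs `(a, b)` modulo `p` with `Kob a b t p`. -/
noncomputable def expected (t x : ℕ) : ℝ :=
  ∑ p ∈ (range (x + 1)).filter Nat.Prime,
    (((Fintype.piFinset (fun _ : Fin 2 => range p)).filter (fun n => Kob (n 0) (n 1) t p)).card : ℝ) / (p : ℝ) ^ 2

/-- The digit number `i` (counted from the right, beginning with `0`) of `n` in base `b`. -/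
def digit (b i n : ℕ) : ℕ := n / b ^ i % b

/-- The number which arises from the number `N` with at most `K` digits in base `b`, if for every `i ∈ S`
the digit number `i` is replaced by `f i`. -/
def change (b K N : ℕ) (f : ℕ → ℕ) (S : Finset ℕ) : ℕ :=
  ∑ i ∈ range K, (if i ∈ S then f i else digit b i N) * b ^ i

open Classical in
/-- The number of the choices of `r l` of `K l` positions for `l = 0, 1` for which the pair of the numbers obtained by
changing the digits of `N 0`, `N 1` at the chosen positions (according to `f 0`, `f 1`) does not have the property `E`. -/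
noncomputable def exceptions (b : ℕ) (K r N : Fin 2 → ℕ) (f : Fin 2 → ℕ → ℕ) (E : (Fin 2 → ℕ) → Prop) : ℕ :=
  ((Fintype.piFinset (fun l => powersetCard (r l) (range (K l)))).filter
    (fun S => ¬ E (fun l => change b (K l) (N l) (f l) (S l)))).card

/-- For all integers `t ≥ 1` the count for the curve with the coefficients `m` differs from its expected value `V` by at
most `(max 1 V) ^ (1 / 2) x ^ δ`. -/
noncomputable def Good (δ : ℝ) (x : ℕ) (m : Fin 2 → ℕ) : Prop :=
  ∀ t : ℕ, 1 ≤ t → |(kob (m 0) (m 1) t x : ℝ) - expected t x| ≤ Real.sqrt (max 1 (expected t x)) * (x : ℝ) ^ δ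

/-! ### Points and traces -/

lemma sq_count {p : ℕ} (hp : p.Prime) (hp2 : p ≠ 2) (a : ℤ) :
    (((range p).filter (fun y : ℕ => (p : ℤ) ∣ (y : ℤ) ^ 2 - a)).card : ℤ) = jacobiSym a p + 1 := by
  have := Fact.mk hp
  have h1 := legendreSym.card_sqrts p hp2 a
  rw [jacobiSym.legendreSym.to_jacobiSym] at h1
  rw [← h1]
  congr 1
  refine card_bij (fun y _ => (y : ZMod p)) ?_ ?_ ?_
  · intro y hy
    rw [mem_filter] at hy
    rw [Set.mem_toFinset]
    show ((y : ZMod p)) ^ 2 = (a : ZMod p)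
    have h2 := (ZMod.intCast_zmod_eq_zero_iff_dvd _ p).2 hy.2
    push_cast at h2
    exact sub_eq_zero.1 h2
  · intro y hy z hz h
    rw [mem_filter, mem_range] at hy hz
    have h2 := (ZMod.natCast_eq_natCast_iff _ _ _).1 h
    exact Nat.ModEq.eq_of_lt_of_lt h2 hy.1 hz.1
  · intro z hz
    rw [Set.mem_toFinset] at hz
    have hz' : z ^ 2 = (a : ZMod p) := hz
    refine ⟨z.val, ?_, ZMod.natCast_zmod_val z⟩
    rw [mem_filter, mem_range]
    refine ⟨ZMod.val_lt z, ?_⟩
    rw [← ZMod.intCast_zmod_eq_zero_iff_dvd]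
    push_cast
    rw [ZMod.natCast_zmod_val, hz', sub_self]

lemma pts_ap {p : ℕ} (hp : p.Prime) (hp2 : p ≠ 2) (A B : ℤ) :
    (pts p A B : ℤ) = p - Pool.Agent.W406.TW.ap A B p := by
  unfold pts Pool.Agent.W406.TW.ap
  rw [card_filter, sum_product]
  push_cast
  have h : ∀ x ∈ range p, (∑ y ∈ range p, if (p : ℤ) ∣ (y : ℤ) ^ 2 - ((x : ℤ) ^ 3 + A * x + B) then (1 : ℤ) else 0) =
      jacobiSym ((x : ℤ) ^ 3 + A * x + B) p + 1 := by
    intro x _
    rw [← sq_count hp hp2, card_filter]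
    push_cast
    rfl
  rw [sum_congr rfl h, sum_add_distrib]
  simp
  ring

/-- the property in terms of the trace -/
def Q (t : ℕ) (p : ℕ) (a : ℤ) : Prop := ∃ q : ℕ, q.Prime ∧ (p : ℤ) + 1 - a = t * q

lemma kob_iff {A B : ℤ} {t p : ℕ} (hp : p.Prime) : Kob A B t p ↔
    ¬ (p : ℤ) ∣ 2 * (4 * A ^ 3 + 27 * B ^ 2) ∧ Q t p (Pool.Agent.W406.TW.ap A B p) := by
  unfold Kob Q
  refine and_congr_right fun hd => exists_congr fun q => and_congr_right fun _ => ?_
  have hp2 : p ≠ 2 := by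
    rintro rfl
    exact hd (Dvd.intro _ rfl)
  have h := pts_ap hp hp2 A B
  constructor
  · intro h1
    have h2 : ((pts p A B + 1 : ℕ) : ℤ) = ((t * q : ℕ) : ℤ) := by rw [h1]
    push_cast at h2
    linarith
  · intro h1
    have h2 : ((pts p A B + 1 : ℕ) : ℤ) = ((t * q : ℕ) : ℤ) := by push_cast; linarith
    exact_mod_cast h2

lemma kobOpp_iff {A B : ℤ} {t p : ℕ} (hp : p.Prime) : KobOpp A B t p ↔
    ¬ (p : ℤ) ∣ 2 * (4 * A ^ 3 + 27 * B ^ 2) ∧ Q t p (-Pool.Agent.W406.TW.ap A B p) := by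
  unfold KobOpp Q
  refine and_congr_right fun hd => exists_congr fun q => and_congr_right fun _ => ?_
  have hp2 : p ≠ 2 := by
    rintro rfl
    exact hd (Dvd.intro _ rfl)
  have h := pts_ap hp hp2 A B
  constructor
  · intro h1
    have h2 : ((2 * p + 2 : ℕ) : ℤ) = (((pts p A B + 1) + t * q : ℕ) : ℤ) := by rw [h1]
    push_cast at h2
    linarith
  · intro h1
    have h2 : ((2 * p + 2 : ℕ) : ℤ) = (((pts p A B + 1) + t * q : ℕ) : ℤ) := by push_cast; linarith
    exact_mod_cast h2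

lemma kob_eq (A B : ℤ) (t x : ℕ) : kob A B t x = Pool.Agent.Q265.KB.cq A B (Q t) x := by
  classical
  unfold kob Pool.Agent.Q265.KB.cq
  congr 1
  ext p
  rw [mem_filter, mem_filter, mem_range, mem_Icc]
  constructor
  · rintro ⟨h1, h2, h3⟩
    exact ⟨⟨h2.one_lt.le, by omega⟩, h2, (kob_iff h2).1 h3⟩
  · rintro ⟨⟨h1, h2⟩, h3, h4⟩
    exact ⟨by omega, h3, (kob_iff h3).2 h4⟩

lemma kobOpp_eq (A B : ℤ) (t x : ℕ) : kobOpp A B t x = Pool.Agent.Q265.KB.cm A B (Q t) x := by
  classical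
  unfold kobOpp Pool.Agent.Q265.KB.cm Pool.Agent.Q265.KB.cq
  congr 1
  ext p
  rw [mem_filter, mem_filter, mem_range, mem_Icc]
  constructor
  · rintro ⟨h1, h2, h3⟩
    exact ⟨⟨h2.one_lt.le, by omega⟩, h2, (kobOpp_iff h2).1 h3⟩
  · rintro ⟨⟨h1, h2⟩, h3, h4⟩
    exact ⟨by omega, h3, (kobOpp_iff h3).2 h4⟩

/-- no prime up to `x` is counted if `t` is large -/
lemma Q_none {A B : ℤ} {t p x : ℕ} (hp : p ≤ x) (ht : 2 * x + 1 < t) (e : ℤ)
    (he : e = Pool.Agent.W406.TW.ap A B p ∨ e = -Pool.Agent.W406.TW.ap A B p) : ¬ Q t p e := by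
  rintro ⟨q, hq, h⟩
  have h1 := Pool.Agent.W406.TW.ap_abs A B p
  have h2 : |e| ≤ p := by
    rcases he with rfl | rfl
    · exact h1
    · rwa [abs_neg]
  have h3 := abs_le.1 h2
  have h4 : (t : ℤ) ≤ t * q := by
    have : (1 : ℤ) ≤ q := by exact_mod_cast hq.one_lt.le
    nlinarith [(Nat.cast_nonneg t : (0 : ℤ) ≤ t)]
  have h5 : (p : ℤ) ≤ x := by exact_mod_cast hp
  have h6 : (2 * (x : ℤ) + 1) < t := by exact_mod_cast ht
  linarith [h3.1]

lemma cq_zero {A B : ℤ} {t x : ℕ} (ht : 2 * x + 1 < t) : Pool.Agent.Q265.KB.cq A B (Q t) x = 0 := by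
  classical
  unfold Pool.Agent.Q265.KB.cq
  rw [card_eq_zero, filter_eq_empty_iff]
  intro p hp hp2
  exact Q_none (mem_Icc.1 hp).2 ht _ (Or.inl rfl) hp2.2.2

lemma cm_zero {A B : ℤ} {t x : ℕ} (ht : 2 * x + 1 < t) : Pool.Agent.Q265.KB.cm A B (Q t) x = 0 := by
  classical
  unfold Pool.Agent.Q265.KB.cm Pool.Agent.Q265.KB.cq
  rw [card_eq_zero, filter_eq_empty_iff]
  intro p hp hp2
  exact Q_none (mem_Icc.1 hp).2 ht _ (Or.inr rfl) hp2.2.2

/-- the part on twists -/
theorem twists (ε : ℝ) (hε : 0 < ε) :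
    ∃ C c : ℝ, 0 < C ∧ 0 < c ∧ ∃ N₀ : ℕ, ∀ N : ℕ, N₀ ≤ N → ∀ A B : ℤ,
      ({D : ℤ | D ≠ 0 ∧ |D| ≤ N ∧ ∃ x : ℕ, (Real.log N) ^ C ≤ x ∧ (x : ℝ) ≤ (N : ℝ) ^ c ∧
        ∃ t : ℕ, 1 ≤ t ∧ Real.sqrt ((kob A B t x : ℝ) + kobOpp A B t x) * (x : ℝ) ^ ε <
          |(kob (A * D ^ 2) (B * D ^ 3) t x : ℝ) - (kob A B t x + kobOpp A B t x) / 2|}.ncard : ℝ) ≤
        (N : ℝ) ^ (1 - c) := by
  obtain ⟨C, c, hC, hc, N₀, h⟩ := Pool.Agent.Q265.KB.gen 2 ε (by norm_num) hε
  have hlim := ((tendsto_rpow_atTop hC).comp (Real.tendsto_log_atTop.comp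
    tendsto_natCast_atTop_atTop)).eventually_ge_atTop (3 : ℝ)
  obtain ⟨N₁, hN₁⟩ := Filter.eventually_atTop.1 hlim
  refine ⟨C, c, hC, hc, max N₀ N₁, fun N hN A B => ?_⟩
  have h3 := hN₁ N ((le_max_right _ _).trans hN)
  simp only [Function.comp_apply] at h3
  refine le_trans ?_ (h N ((le_max_left _ _).trans hN) A B ℕ (fun y => Icc 1 (2 * y + 1)) ?_ Q)
  · norm_cast
    apply Set.ncard_le_ncard
    · rintro D ⟨hD0, hDN, x, hx1, hx2, t, ht, hlt⟩
      refine ⟨hD0, hDN, x, hx1, hx2, t, ?_, ?_⟩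
      · rw [mem_Icc]
        refine ⟨ht, ?_⟩
        by_contra hcon
        push Not at hcon
        rw [kob_eq, kob_eq, kobOpp_eq, cq_zero hcon, cq_zero hcon, cm_zero hcon] at hlt
        simp at hlt
      · rw [kob_eq, kob_eq, kobOpp_eq] at hlt
        exact hlt
    · refine Set.Finite.subset (Set.finite_Icc (-(N : ℤ)) N) ?_
      rintro D ⟨_, hD, _⟩
      exact Set.mem_Icc.2 (abs_le.1 hD)
  · intro y hy1 _
    have hy3 : (3 : ℝ) ≤ y := h3.trans hy1
    rw [Nat.card_Icc, Real.rpow_two]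
    push_cast
    nlinarith

/-! ### Changing digits -/

lemma kob_congr {A B A' B' : ℤ} {t p : ℕ} (hA : A ≡ A' [ZMOD p]) (hB : B ≡ B' [ZMOD p]) :
    Kob A B t p ↔ Kob A' B' t p := by
  have h1 : (p : ℤ) ∣ 2 * (4 * A ^ 3 + 27 * B ^ 2) ↔ (p : ℤ) ∣ 2 * (4 * A' ^ 3 + 27 * B' ^ 2) :=
    ((((hA.pow 3).mul_left 4).add ((hB.pow 2).mul_left 27)).mul_left 2).dvd_iff
  have h2 : pts p A B = pts p A' B' := by
    unfold pts
    congr 1
    apply filter_congr
    intro xy _
    have h : (xy.2 : ℤ) ^ 2 - ((xy.1 : ℤ) ^ 3 + A * xy.1 + B) ≡ (xy.2 : ℤ) ^ 2 - ((xy.1 : ℤ) ^ 3 + A' * xy.1 + B') [ZMOD p] :=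
      (Int.ModEq.refl _).sub ((((Int.ModEq.refl _)).add (hA.mul_right _)).add hB)
    exact h.dvd_iff
  unfold Kob
  rw [h1, h2]

lemma kob_mod (t p : ℕ) (m : Fin 2 → ℕ) : Kob (m 0) (m 1) t p ↔ Kob ((m 0 % p : ℕ) : ℤ) ((m 1 % p : ℕ) : ℤ) t p := by
  apply kob_congr
  · push_cast; exact (Int.mod_modEq _ _).symm
  · push_cast; exact (Int.mod_modEq _ _).symm

/-- the part on changed digits -/
theorem digits (b : ℕ) (hb : 2 ≤ b) (δ : ℝ) (hδ : 0 < δ) (A : ℕ) : ∃ c : ℝ, 0 < c ∧ ∃ y₀ : ℕ,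
    ∀ (K r : Fin 2 → ℕ) (y : ℕ), (∀ l, 2 * r l ≤ K l) → y₀ ≤ y →
    ∀ N : Fin 2 → ℕ, (∀ l, N l < b ^ K l) → ∀ f : Fin 2 → ℕ → ℕ, (∀ l j, f l j < b ∧ f l j ≠ digit b j (N l)) →
      (exceptions b K r N f (fun m => ∀ x : ℕ, y ≤ x → (∀ l, (x : ℝ) ≤ Real.exp (c * r l)) → Good δ x m) : ℝ) ≤
        1 / (y : ℝ) ^ A * ∏ l, ((K l).choose (r l) : ℝ) := by
  classical
  obtain ⟨c, hc, x₀, h⟩ := Pool.Agent.TH894.NE.law2 b 2 hb (by norm_num) δ A 4 hδ
  refine ⟨c, hc, x₀ + 3, fun K r y hrK hy N hN f hf => ?_⟩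
  have hy0 : (0 : ℝ) < y := by exact_mod_cast (by omega : 0 < y)
  have h1 : 1 / (y : ℝ) ^ A = (y : ℝ) ^ (-(A : ℝ)) := by
    rw [Real.rpow_neg hy0.le, Real.rpow_natCast, one_div]
  rw [h1]
  unfold exceptions
  refine h r K y hrK (by omega) N hN f hf ℕ (fun x => if x < 2 then ∅ else Icc 1 (x ^ 2 + 1)) ?_ ℕ
    (fun x _ => (range (x + 1)).filter Nat.Prime) (fun _ p => p) ?_ ?_ (fun t p m => Kob (m 0) (m 1) t p) ?_ _ (filter_subset _ _) ?_
  · intro x _
    show (((if x < 2 then ∅ else Icc 1 (x ^ 2 + 1) : Finset ℕ).card : ℕ) : ℝ) ≤ _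
    split_ifs with hx
    · rw [card_empty, Nat.cast_zero]
      positivity
    · push Not at hx
      have hxr : (2 : ℝ) ≤ x := by exact_mod_cast hx
      rw [Nat.card_Icc, show (4 : ℝ) = ((4 : ℕ) : ℝ) by norm_num, Real.rpow_natCast]
      push_cast
      have e3 : (4 : ℝ) ≤ (x : ℝ) ^ 2 := by nlinarith
      nlinarith
  · intro x l _ p hp
    rw [mem_filter, mem_range] at hp
    exact ⟨hp.2.one_lt.le, by omega⟩
  · intro x l _ p hp p' hp' hne
    rw [mem_filter] at hp hp'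
    exact (Nat.coprime_primes hp.2 hp'.2).2 hne
  · intro x t _ p _ m
    exact kob_mod t p m
  · intro S hS
    rw [mem_filter] at hS
    obtain ⟨_, hS2⟩ := hS
    unfold Good at hS2
    push Not at hS2
    obtain ⟨x, hyx, hxr, t, ht, hlt⟩ := hS2
    have hx0 : (0 : ℝ) < x := by exact_mod_cast (by omega : 0 < x)
    obtain ⟨m, hm⟩ : ∃ m : Fin 2 → ℕ, m = fun l => change b (K l) (N l) (f l) (S l) := ⟨_, rfl⟩
    have hlt' : Real.sqrt (max 1 (expected t x)) * (x : ℝ) ^ δ < |(kob (m 0) (m 1) t x : ℝ) - expected t x| := by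
      rw [hm]; exact hlt
    have hcount : (kob (m 0) (m 1) t x : ℝ) = ((((range (x + 1)).filter Nat.Prime).filter (fun p => Kob (m 0) (m 1) t p)).card : ℝ) := by
      unfold kob
      rw [filter_filter]
    have hexp : expected t x = ∑ p ∈ (range (x + 1)).filter Nat.Prime, Pool.Agent.TH894.NE.Pr 2 p (fun n => Kob (n 0) (n 1) t p) := by
      unfold expected Pool.Agent.TH894.NE.Pr Pool.Agent.TH894.NE.box
      rfl
    refine ⟨x, hyx, fun l => (Real.log_le_iff_le_exp hx0).2 (hxr l), t, ?_, ?_⟩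
    · show t ∈ (if x < 2 then ∅ else Icc 1 (x ^ 2 + 1))
      rw [if_neg (by omega)]
      by_contra hcon
      have hno : ∀ p ∈ (range (x + 1)).filter Nat.Prime, ∀ u v : ℤ, ¬ Kob u v t p := by
        intro p hp u v hn
        rw [mem_filter, mem_range] at hp
        apply hcon
        obtain ⟨_, q, hq, hn⟩ := hn
        have h2 : pts p u v ≤ p * p := by
          unfold pts
          refine (card_filter_le _ _).trans ?_
          rw [card_product, card_range]
        have hpx : p ≤ x := by omega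
        have h3 : p * p ≤ x ^ 2 := by rw [sq]; exact Nat.mul_le_mul hpx hpx
        have h4 : t ≤ t * q := Nat.le_mul_of_pos_right _ hq.pos
        rw [mem_Icc]
        exact ⟨ht, by omega⟩
      have h9 : kob (m 0) (m 1) t x = 0 := by
        unfold kob
        rw [card_eq_zero, filter_eq_empty_iff]
        intro p hp hp2
        exact hno p (by rw [mem_filter]; exact ⟨hp, hp2.1⟩) _ _ hp2.2
      have h10 : expected t x = 0 := by
        unfold expected
        apply sum_eq_zero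
        intro p hp
        have : (Fintype.piFinset (fun _ : Fin 2 => range p)).filter (fun n => Kob (n 0) (n 1) t p) = ∅ := by
          rw [filter_eq_empty_iff]
          intro n _
          exact hno p hp _ _
        rw [this, card_empty, Nat.cast_zero, zero_div]
      rw [h9, h10] at hlt'
      simp at hlt'
      have : 0 ≤ (x : ℝ) ^ δ := by positivity
      linarith
    · rw [hcount, hexp, hm] at hlt'
      exact hlt'

/-- **The counts of the Koblitz problem for almost all twists and for almost all curves.**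
`kob A B t x` is the number of the primes `p ≤ x`, `p ∤ 2 (4 A³ + 27 B²)`, for which the number of points of
`E : y² = x³ + A x + B` over the field with `p` elements is `t` times a prime, and `kobOpp A B t x` is the same number with
`2 p + 2 - #E(F_p)` in place of `#E(F_p)`.

(1) Let `ε > 0`. There are `C, c > 0`, depending only on `ε`, such that for all large `N` and ALL integers `A, B` the
following holds for all but at most `N^(1-c)` of the integers `D ≠ 0`, `|D| ≤ N`: for all `x` with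
`(log N)^C ≤ x ≤ N^c` and all `t ≥ 1` the number `kob (A D²) (B D³) t x` belonging to the quadratic twist by `D` differs
from the mean of `kob A B t x` and `kobOpp A B t x` by at most `(kob A B t x + kobOpp A B t x)^(1/2) x^ε`.

(2) Let a base `b ≥ 2`, `δ > 0` and an integer `A ≥ 0` be given. There are `c > 0` and `y₀` such that for all `r 0`, `r 1`,
`K 0`, `K 1`, `y` with `2 r l ≤ K l` and `y ≥ y₀` the following holds. Let `0 ≤ N l < b ^ K l` be arbitrary integers and
prescribe for every position `j` a digit `f l j` different from the digit of `N l`. If one chooses `r l` of the `K l`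
positions and replaces the digits of `N l` at these positions, then for all but at most a proportion `1 / y ^ A` of the
choices the curve `Y² = X³ + m 0 X + m 1` obtained satisfies, for all `x` with `y ≤ x ≤ exp (c r l)` (`l = 0, 1`) and all
`t ≥ 1`: the number of the primes `p ≤ x` with `#E(F_p) / t` prime differs from the sum `V` over the primes `p ≤ x` of the
proportion of such curves modulo `p` by at most `(max 1 V) ^ (1 / 2) x ^ δ`. -/
theorem result :
    (∀ ε : ℝ, 0 < ε → ∃ C c : ℝ, 0 < C ∧ 0 < c ∧ ∃ N₀ : ℕ, ∀ N : ℕ, N₀ ≤ N → ∀ A B : ℤ,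
      ({D : ℤ | D ≠ 0 ∧ |D| ≤ N ∧ ∃ x : ℕ, (Real.log N) ^ C ≤ x ∧ (x : ℝ) ≤ (N : ℝ) ^ c ∧
        ∃ t : ℕ, 1 ≤ t ∧ Real.sqrt ((kob A B t x : ℝ) + kobOpp A B t x) * (x : ℝ) ^ ε <
          |(kob (A * D ^ 2) (B * D ^ 3) t x : ℝ) - (kob A B t x + kobOpp A B t x) / 2|}.ncard : ℝ) ≤
        (N : ℝ) ^ (1 - c)) ∧
    (∀ b : ℕ, 2 ≤ b → ∀ δ : ℝ, 0 < δ → ∀ A : ℕ, ∃ c : ℝ, 0 < c ∧ ∃ y₀ : ℕ,
      ∀ (K r : Fin 2 → ℕ) (y : ℕ), (∀ l, 2 * r l ≤ K l) → y₀ ≤ y →
      ∀ N : Fin 2 → ℕ, (∀ l, N l < b ^ K l) → ∀ f : Fin 2 → ℕ → ℕ, (∀ l j, f l j < b ∧ f l j ≠ digit b j (N l)) →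
        (exceptions b K r N f (fun m => ∀ x : ℕ, y ≤ x → (∀ l, (x : ℝ) ≤ Real.exp (c * r l)) → Good δ x m) : ℝ) ≤
          1 / (y : ℝ) ^ A * ∏ l, ((K l).choose (r l) : ℝ)) :=
  ⟨fun ε hε => twists ε hε, fun b hb δ hδ A => digits b hb δ hδ A⟩

end Pool.Agent.Results.MP_b89fd0_nt.AlmostAllTwistsAndCurves
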