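import Pool.Agent.Q106.KB.Ref

/-!
# MP_b89fd0_nt: the constants of the refined Koblitz conjecture as limits of the constants of the sieved models

`E` is an integral Weierstrass equation, `N_p = pts E p` the number of points of its reduction modulo the (actual) prime `p`,
`Good E p`: `p` is a prime which does not divide the discriminant. The sieved model of level `Q`: a random set `A` which
contains the integers `n ≥ 2` coprime to `Q` independently with probability `(Q / φ(Q)) / log n` (at most `1`), and no others.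
`kob A E t x` is the number of the good `p ≤ x` with `N_p / t ∈ A`; for the set of the primes in place of `A` it is the
function `π_{E,t}(x)` of the question.
-/

set_option autoImplicit false

namespace Pool.Agent.Results.MP_b89fd0_nt.ConstantsOfTheModels

open Finset MeasureTheory ProbabilityTheory Filter
open scoped Topology
open Pool.Agent.Q120.GM (IsModel level prodMeasure trueSet)
open Pool.Agent.Q106.KB (pts Good kob cnt unitCount const)

/-- **The asymptotic law of Koblitz's count for all curves and all `t` at once, and the constants.** -/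
theorem result :
    (∀ Q : ℕ, IsModel (prodMeasure (level Q)) (level Q) (trueSet (ι := ℕ))) ∧
    (∀ (Ω : Type) (_ : MeasurableSpace Ω) (μ : Measure Ω) (_ : IsProbabilityMeasure μ) (A : Ω → Set ℕ) (Q : ℕ), 1 ≤ Q →
      IsModel μ (level Q) A →
      ∀ᵐ ω ∂μ, ∀ (E : WeierstrassCurve ℤ) (t : ℕ), 1 ≤ t → ∀ δ : ℝ,
        (Tendsto (fun x : ℕ => cnt Q E t x / Nat.primeCounting x) atTop (𝓝 δ) ↔
        Tendsto (fun x : ℕ => kob (A ω) E t x / (x / Real.log x ^ 2)) atTop (𝓝 ((Q : ℝ) / Nat.totient Q * δ)))) ∧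
    ∀ (E : WeierstrassCurve ℤ) (t : ℕ), 1 ≤ t → ∀ (δ : ℕ → ℝ) (C : ℝ),
      (∀ m : ℕ, 0 < m → Tendsto (fun x : ℕ => unitCount E t m x / Nat.primeCounting x) atTop (𝓝 (δ m))) →
      Tendsto (fun n : ℕ => δ (Nat.factorial n) / ∏ l ∈ (Nat.factorial n).primeFactors, (1 - 1 / (l : ℝ))) atTop (𝓝 C) →
      Tendsto (const δ t) atTop (𝓝 C) ∧
      ∀ n : ℕ, t ≤ n → ∀ (Ω : Type) (_ : MeasurableSpace Ω) (μ : Measure Ω) (_ : IsProbabilityMeasure μ) (A : Ω → Set ℕ),
        IsModel μ (level (n.factorial / t)) A →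
        ∀ᵐ ω ∂μ, Tendsto (fun x : ℕ => kob (A ω) E t x / (x / Real.log x ^ 2)) atTop (𝓝 (const δ t n)) := by
  refine ⟨fun Q => Pool.Agent.Q120.GM.isModel (level Q) (Pool.Agent.Q120.GM.level_nonneg Q)
    (Pool.Agent.Q120.GM.level_le_one Q), ?_, ?_⟩
  · intro Ω i μ j A Q hQ hA
    exact Pool.Agent.Q106.KB.models_asym Ω i μ j A Q hQ hA
  · intro E t ht1 δ C hδ hC
    refine ⟨Pool.Agent.Q106.KB.const_lim ht1 hC, ?_⟩
    intro n hn Ω i μ j A hA
    have htn : t ∣ n.factorial := Nat.dvd_factorial (by omega) hn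
    have hR1 : 1 ≤ n.factorial / t := Nat.div_pos (Nat.le_of_dvd (Nat.factorial_pos n) htn) (by omega)
    have hR2 : t * (n.factorial / t) = n.factorial := Nat.mul_div_cancel' htn
    filter_upwards [Pool.Agent.Q106.KB.models_asym Ω i μ j A (n.factorial / t) hR1 hA] with ω hω
    refine (hω E t ht1 (δ n.factorial)).1 ?_
    have h1 := hδ n.factorial (Nat.factorial_pos n)
    refine h1.congr (fun x => ?_)
    rw [← Pool.Agent.Q106.KB.unitCount_eq ht1 hR1 E x, hR2]

end Pool.Agent.Results.MP_b89fd0_nt.ConstantsOfTheModels
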