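import Mathlib
import Pool.Agent.Q84.MB.F5
import Pool.Agent.Q265.KB.Tw

/-!
# The counts of the Koblitz problem for the twists of all small curves by the primes of a string

`kob A B t x` is the number of the primes `q ≤ x`, `q ∤ 2 (4 A³ + 27 B²)`, for which the number of points of
`y² = x³ + A x + B` over the field with `q` elements is `t` times a prime, and `kobOpp A B t x` is the same for the
nontrivial quadratic twist modulo `q`.

Let `ε > 0`. There are `C', δ > 0`, for every `m` a `c > 0` and for every `Z` a number `C` such that for every large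
`X` there is a set `S` of at most `(log X) ^ (49 / 50)` primes, all larger than `Z`, such that for EVERY function `f`
with values `1` and `-1` on the primes at least `X ^ (1 - δ)` integers `n`, `X < n ≤ 3X`, satisfy: the interval
`[n, n + C]` contains at least `m` primes, and for every prime `p` in it

* for all curves, all `t` and all odd primes `q ≤ c log X` outside `S` the prime `q` is counted for the twist by `p`
  if and only if it is counted for the curve itself (if `f q = 1`), respectively for its nontrivial twist modulo `q`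
  (if `f q = -1`);
* for ALL curves with `|A|, |B| ≤ p ^ δ`, ALL `0 < |k| ≤ p ^ δ`, all `x` with `(log p) ^ C' ≤ x ≤ p ^ δ` and ALL
  `t ≥ 1` the count for the twist by `k p` is the mean of `kob` and `kobOpp`, with the error `√(kob + kobOpp) x ^ ε`.
-/

set_option autoImplicit false

open scoped Classical

namespace Pool.Agent.Results.MP_b89fd0_nt.TwistsByStringsOfPrimes

open Finset Filter

/-- the number of solutions of `y² = x³ + A x + B` modulo `p`; for good `p` the curve has `pts p A B + 1` points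
over the field with `p` elements -/
def pts (p : ℕ) (A B : ℤ) : ℕ :=
  ((range p ×ˢ range p).filter
    (fun xy : ℕ × ℕ => (p : ℤ) ∣ (xy.2 : ℤ) ^ 2 - ((xy.1 : ℤ) ^ 3 + A * xy.1 + B))).card

/-- `p` does not divide `2 (4 A³ + 27 B²)`, and the number of points of `y² = x³ + A x + B` over the field with `p`
elements is `t` times a prime number -/
def Kob (A B : ℤ) (t p : ℕ) : Prop :=
  ¬ (p : ℤ) ∣ 2 * (4 * A ^ 3 + 27 * B ^ 2) ∧ ∃ q : ℕ, q.Prime ∧ pts p A B + 1 = t * q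

/-- the same for the number `2 p + 2 - #E(F_p)` of points of the nontrivial quadratic twist modulo `p` -/
def KobOpp (A B : ℤ) (t p : ℕ) : Prop :=
  ¬ (p : ℤ) ∣ 2 * (4 * A ^ 3 + 27 * B ^ 2) ∧ ∃ q : ℕ, q.Prime ∧ 2 * p + 2 = (pts p A B + 1) + t * q

/-- the number of primes `p ≤ x` with `Kob A B t p`: the count `π_{E,t}(x)` -/
noncomputable def kob (A B : ℤ) (t x : ℕ) : ℕ := ((range (x + 1)).filter (fun p => p.Prime ∧ Kob A B t p)).card

/-- the number of primes `p ≤ x` with `KobOpp A B t p` -/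
noncomputable def kobOpp (A B : ℤ) (t x : ℕ) : ℕ :=
  ((range (x + 1)).filter (fun p => p.Prime ∧ KobOpp A B t p)).card

/-- For all curves with coefficients at most `p ^ δ` and all `0 < |k| ≤ p ^ δ`, `(log p) ^ C ≤ x ≤ p ^ δ` and `t ≥ 1`
the number `kob` for the twist by `k p` is the mean of the numbers `kob` and `kobOpp` for the curve, with an error
`√n x ^ ε`, where `n` is the sum of these two numbers. -/
def Good (ε C δ : ℝ) (p : ℕ) : Prop := ∀ A B k : ℤ, |(A : ℝ)| ≤ (p : ℝ) ^ δ → |(B : ℝ)| ≤ (p : ℝ) ^ δ → k ≠ 0 →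
  |(k : ℝ)| ≤ (p : ℝ) ^ δ → ∀ x : ℕ, (Real.log p) ^ C ≤ x → (x : ℝ) ≤ (p : ℝ) ^ δ → ∀ t : ℕ, 1 ≤ t →
    |(kob (A * (k * p) ^ 2) (B * (k * p) ^ 3) t x : ℝ) - (kob A B t x + kobOpp A B t x) / 2| ≤
      √((kob A B t x : ℝ) + kobOpp A B t x) * (x : ℝ) ^ ε

/-! ### Points and traces -/

lemma sq_count {p : ℕ} (hp : p.Prime) (hp2 : p ≠ 2) (a : ℤ) :
    (((range p).filter (fun y : ℕ => (p : ℤ) ∣ (y : ℤ) ^ 2 - a)).card : ℤ) = jacobiSym a p + 1 := by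
  have := Fact.mk hp
  have h1 := legendreSym.card_sqrts p hp2 a
  rw [jacobiSym.legendreSym.to_jacobiSym] at h1
  rw [← h1]
  congr 1
  refine card_bij (fun y _ => (y : ZMod p)) ?_ ?_ ?_
  · intro y hy
    rw [mem_filter] at hy
    rw [Set.mem_toFinset]
    show ((y : ZMod p)) ^ 2 = (a : ZMod p)
    have h2 := (ZMod.intCast_zmod_eq_zero_iff_dvd _ p).2 hy.2
    push_cast at h2
    exact sub_eq_zero.1 h2
  · intro y hy z hz h
    rw [mem_filter, mem_range] at hy hz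
    have h2 := (ZMod.natCast_eq_natCast_iff _ _ _).1 h
    exact Nat.ModEq.eq_of_lt_of_lt h2 hy.1 hz.1
  · intro z hz
    rw [Set.mem_toFinset] at hz
    have hz' : z ^ 2 = (a : ZMod p) := hz
    refine ⟨z.val, ?_, ZMod.natCast_zmod_val z⟩
    rw [mem_filter, mem_range]
    refine ⟨ZMod.val_lt z, ?_⟩
    rw [← ZMod.intCast_zmod_eq_zero_iff_dvd]
    push_cast
    rw [ZMod.natCast_zmod_val, hz', sub_self]

lemma pts_ap {p : ℕ} (hp : p.Prime) (hp2 : p ≠ 2) (A B : ℤ) :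
    (pts p A B : ℤ) = p - Pool.Agent.W406.TW.ap A B p := by
  unfold pts Pool.Agent.W406.TW.ap
  rw [card_filter, sum_product]
  push_cast
  have h : ∀ x ∈ range p, (∑ y ∈ range p, if (p : ℤ) ∣ (y : ℤ) ^ 2 - ((x : ℤ) ^ 3 + A * x + B) then (1 : ℤ) else 0) =
      jacobiSym ((x : ℤ) ^ 3 + A * x + B) p + 1 := by
    intro x _
    rw [← sq_count hp hp2, card_filter]
    push_cast
    rfl
  rw [sum_congr rfl h, sum_add_distrib]
  simp
  ring

/-- the property in terms of the trace -/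
def Q (t : ℕ) (p : ℕ) (a : ℤ) : Prop := ∃ q : ℕ, q.Prime ∧ (p : ℤ) + 1 - a = t * q

lemma kob_iff {A B : ℤ} {t p : ℕ} (hp : p.Prime) : Kob A B t p ↔
    ¬ (p : ℤ) ∣ 2 * (4 * A ^ 3 + 27 * B ^ 2) ∧ Q t p (Pool.Agent.W406.TW.ap A B p) := by
  unfold Kob Q
  refine and_congr_right fun hd => exists_congr fun q => and_congr_right fun _ => ?_
  have hp2 : p ≠ 2 := by
    rintro rfl
    exact hd (Dvd.intro _ rfl)
  have h := pts_ap hp hp2 A B
  constructor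
  · intro h1
    have h2 : ((pts p A B + 1 : ℕ) : ℤ) = ((t * q : ℕ) : ℤ) := by rw [h1]
    push_cast at h2
    linarith
  · intro h1
    have h2 : ((pts p A B + 1 : ℕ) : ℤ) = ((t * q : ℕ) : ℤ) := by push_cast; linarith
    exact_mod_cast h2

lemma kobOpp_iff {A B : ℤ} {t p : ℕ} (hp : p.Prime) : KobOpp A B t p ↔
    ¬ (p : ℤ) ∣ 2 * (4 * A ^ 3 + 27 * B ^ 2) ∧ Q t p (-Pool.Agent.W406.TW.ap A B p) := by
  unfold KobOpp Q
  refine and_congr_right fun hd => exists_congr fun q => and_congr_right fun _ => ?_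
  have hp2 : p ≠ 2 := by
    rintro rfl
    exact hd (Dvd.intro _ rfl)
  have h := pts_ap hp hp2 A B
  constructor
  · intro h1
    have h2 : ((2 * p + 2 : ℕ) : ℤ) = (((pts p A B + 1) + t * q : ℕ) : ℤ) := by rw [h1]
    push_cast at h2
    linarith
  · intro h1
    have h2 : ((2 * p + 2 : ℕ) : ℤ) = (((pts p A B + 1) + t * q : ℕ) : ℤ) := by push_cast; linarith
    exact_mod_cast h2

lemma kob_eq (A B : ℤ) (t x : ℕ) : kob A B t x = Pool.Agent.Q265.KB.cq A B (Q t) x := by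
  classical
  unfold kob Pool.Agent.Q265.KB.cq
  congr 1
  ext p
  rw [mem_filter, mem_filter, mem_range, mem_Icc]
  constructor
  · rintro ⟨h1, h2, h3⟩
    exact ⟨⟨h2.one_lt.le, by omega⟩, h2, (kob_iff h2).1 h3⟩
  · rintro ⟨⟨h1, h2⟩, h3, h4⟩
    exact ⟨by omega, h3, (kob_iff h3).2 h4⟩

lemma kobOpp_eq (A B : ℤ) (t x : ℕ) : kobOpp A B t x = Pool.Agent.Q265.KB.cm A B (Q t) x := by
  classical
  unfold kobOpp Pool.Agent.Q265.KB.cm Pool.Agent.Q265.KB.cq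
  congr 1
  ext p
  rw [mem_filter, mem_filter, mem_range, mem_Icc]
  constructor
  · rintro ⟨h1, h2, h3⟩
    exact ⟨⟨h2.one_lt.le, by omega⟩, h2, (kobOpp_iff h2).1 h3⟩
  · rintro ⟨⟨h1, h2⟩, h3, h4⟩
    exact ⟨by omega, h3, (kobOpp_iff h3).2 h4⟩

/-- no prime up to `x` is counted if `t` is large -/
lemma Q_none {A B : ℤ} {t p x : ℕ} (hp : p ≤ x) (ht : 2 * x + 1 < t) (e : ℤ)
    (he : e = Pool.Agent.W406.TW.ap A B p ∨ e = -Pool.Agent.W406.TW.ap A B p) : ¬ Q t p e := by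
  rintro ⟨q, hq, h⟩
  have h1 := Pool.Agent.W406.TW.ap_abs A B p
  have h2 : |e| ≤ p := by
    rcases he with rfl | rfl
    · exact h1
    · rwa [abs_neg]
  have h3 := abs_le.1 h2
  have h4 : (t : ℤ) ≤ t * q := by
    have : (1 : ℤ) ≤ q := by exact_mod_cast hq.one_lt.le
    nlinarith [(Nat.cast_nonneg t : (0 : ℤ) ≤ t)]
  have h5 : (p : ℤ) ≤ x := by exact_mod_cast hp
  have h6 : (2 * (x : ℤ) + 1) < t := by exact_mod_cast ht
  linarith [h3.1]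

lemma cq_zero {A B : ℤ} {t x : ℕ} (ht : 2 * x + 1 < t) : Pool.Agent.Q265.KB.cq A B (Q t) x = 0 := by
  classical
  unfold Pool.Agent.Q265.KB.cq
  rw [card_eq_zero, filter_eq_empty_iff]
  intro p hp hp2
  exact Q_none (mem_Icc.1 hp).2 ht _ (Or.inl rfl) hp2.2.2

lemma cm_zero {A B : ℤ} {t x : ℕ} (ht : 2 * x + 1 < t) : Pool.Agent.Q265.KB.cm A B (Q t) x = 0 := by
  classical
  unfold Pool.Agent.Q265.KB.cm Pool.Agent.Q265.KB.cq
  rw [card_eq_zero, filter_eq_empty_iff]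
  intro p hp hp2
  exact Q_none (mem_Icc.1 hp).2 ht _ (Or.inr rfl) hp2.2.2

/-- the part on twists -/
theorem twists (ε : ℝ) (hε : 0 < ε) :
    ∃ C c : ℝ, 0 < C ∧ 0 < c ∧ ∃ N₀ : ℕ, ∀ N : ℕ, N₀ ≤ N → ∀ A B : ℤ,
      ({D : ℤ | D ≠ 0 ∧ |D| ≤ N ∧ ∃ x : ℕ, (Real.log N) ^ C ≤ x ∧ (x : ℝ) ≤ (N : ℝ) ^ c ∧
        ∃ t : ℕ, 1 ≤ t ∧ Real.sqrt ((kob A B t x : ℝ) + kobOpp A B t x) * (x : ℝ) ^ ε <
          |(kob (A * D ^ 2) (B * D ^ 3) t x : ℝ) - (kob A B t x + kobOpp A B t x) / 2|}.ncard : ℝ) ≤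
        (N : ℝ) ^ (1 - c) := by
  obtain ⟨C, c, hC, hc, N₀, h⟩ := Pool.Agent.Q265.KB.gen 2 ε (by norm_num) hε
  have hlim := ((tendsto_rpow_atTop hC).comp (Real.tendsto_log_atTop.comp
    tendsto_natCast_atTop_atTop)).eventually_ge_atTop (3 : ℝ)
  obtain ⟨N₁, hN₁⟩ := Filter.eventually_atTop.1 hlim
  refine ⟨C, c, hC, hc, max N₀ N₁, fun N hN A B => ?_⟩
  have h3 := hN₁ N ((le_max_right _ _).trans hN)
  simp only [Function.comp_apply] at h3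
  refine le_trans ?_ (h N ((le_max_left _ _).trans hN) A B ℕ (fun y => Icc 1 (2 * y + 1)) ?_ Q)
  · norm_cast
    apply Set.ncard_le_ncard
    · rintro D ⟨hD0, hDN, x, hx1, hx2, t, ht, hlt⟩
      refine ⟨hD0, hDN, x, hx1, hx2, t, ?_, ?_⟩
      · rw [mem_Icc]
        refine ⟨ht, ?_⟩
        by_contra hcon
        push Not at hcon
        rw [kob_eq, kob_eq, kobOpp_eq, cq_zero hcon, cq_zero hcon, cm_zero hcon] at hlt
        simp at hlt
      · rw [kob_eq, kob_eq, kobOpp_eq] at hlt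
        exact hlt
    · refine Set.Finite.subset (Set.finite_Icc (-(N : ℤ)) N) ?_
      rintro D ⟨_, hD, _⟩
      exact Set.mem_Icc.2 (abs_le.1 hD)
  · intro y hy1 _
    have hy3 : (3 : ℝ) ≤ y := h3.trans hy1
    rw [Nat.card_Icc, Real.rpow_two]
    push_cast
    nlinarith

/-! ### Small primes -/

lemma bad_twist (A B : ℤ) {p q : ℕ} (hq : q.Prime) (hpq : ¬ (q : ℤ) ∣ (p : ℤ)) :
    (q : ℤ) ∣ 2 * (4 * (A * p ^ 2) ^ 3 + 27 * (B * p ^ 3) ^ 2) ↔ (q : ℤ) ∣ 2 * (4 * A ^ 3 + 27 * B ^ 2) := by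
  have hq' : Prime (q : ℤ) := Nat.prime_iff_prime_int.1 hq
  have h1 : 2 * (4 * (A * p ^ 2) ^ 3 + 27 * (B * p ^ 3) ^ 2) = (2 * (4 * A ^ 3 + 27 * B ^ 2)) * (p : ℤ) ^ 6 := by ring
  rw [h1]
  constructor
  · intro h
    rcases hq'.dvd_or_dvd h with h2 | h2
    · exact h2
    · exact absurd (hq'.dvd_of_dvd_pow h2) hpq
  · intro h
    exact h.mul_right _

lemma kob_one (A B : ℤ) (p : ℕ) {q : ℕ} (hq : q.Prime) (hq2 : q ≠ 2) (hj : jacobiSym p q = 1) (t : ℕ) :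
    Kob (A * p ^ 2) (B * p ^ 3) t q ↔ Kob A B t q := by
  have hpq : ¬ (q : ℤ) ∣ (p : ℤ) := by
    intro h
    have : Fact q.Prime := ⟨hq⟩
    have h2 : jacobiSym p q = 0 := by
      rw [← jacobiSym.legendreSym.to_jacobiSym, legendreSym.eq_zero_iff]
      exact (ZMod.intCast_zmod_eq_zero_iff_dvd _ _).2 h
    rw [h2] at hj
    exact absurd hj (by decide)
  rw [kob_iff hq, kob_iff hq, bad_twist A B hq hpq, Pool.Agent.W406.TW.ap_twist A B p hq hq2, hj, one_mul]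

lemma kob_neg (A B : ℤ) (p : ℕ) {q : ℕ} (hq : q.Prime) (hq2 : q ≠ 2) (hj : jacobiSym p q = -1) (t : ℕ) :
    Kob (A * p ^ 2) (B * p ^ 3) t q ↔ KobOpp A B t q := by
  have hpq : ¬ (q : ℤ) ∣ (p : ℤ) := by
    intro h
    have : Fact q.Prime := ⟨hq⟩
    have h2 : jacobiSym p q = 0 := by
      rw [← jacobiSym.legendreSym.to_jacobiSym, legendreSym.eq_zero_iff]
      exact (ZMod.intCast_zmod_eq_zero_iff_dvd _ _).2 h
    rw [h2] at hj
    exact absurd hj (by decide)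
  rw [kob_iff hq, kobOpp_iff hq, bad_twist A B hq hpq, Pool.Agent.W406.TW.ap_twist A B p hq hq2, hj, neg_one_mul]

theorem result (ε : ℝ) (hε : 0 < ε) : ∃ C' δ : ℝ, 0 < C' ∧ 0 < δ ∧ ∀ m : ℕ, ∃ c : ℝ, 0 < c ∧
    ∀ Z : ℕ, ∃ C : ℕ, ∃ X₀ : ℝ, ∀ X : ℝ, X₀ ≤ X →
    ∃ S : Finset ℕ, (∀ q ∈ S, q.Prime ∧ Z < q) ∧ (S.card : ℝ) ≤ (Real.log X) ^ (49 / 50 : ℝ) ∧
    ∀ f : ℕ → ℤ, (∀ q, f q = 1 ∨ f q = -1) →
      X ^ (1 - δ) ≤ (((Icc 1 ⌊3 * X⌋₊).filter fun n : ℕ => X < n ∧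
        m ≤ ((Icc n (n + C)).filter Nat.Prime).card ∧
        ∀ p ∈ Icc n (n + C), p.Prime → Good ε C' δ p ∧
          ∀ q : ℕ, q.Prime → q ≠ 2 → (q : ℝ) ≤ c * Real.log X → q ∉ S → ∀ (A B : ℤ) (t : ℕ),
            Kob (A * p ^ 2) (B * p ^ 3) t q ↔ if f q = 1 then Kob A B t q else KobOpp A B t q).card : ℝ) := by
  obtain ⟨C₁, c₁, hC₁, hc₁, N₀, hN₀⟩ := twists ε hε
  obtain ⟨c₂, hc₂⟩ : ∃ c₂, c₂ = min c₁ 1 := ⟨_, rfl⟩
  have hc20 : 0 < c₂ := by rw [hc₂]; exact lt_min hc₁ one_pos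
  have hc21 : c₂ ≤ 1 := by rw [hc₂]; exact min_le_right _ _
  have hc2c : c₂ ≤ c₁ := by rw [hc₂]; exact min_le_left _ _
  obtain ⟨Bad, hBad⟩ : ∃ Bad : ℤ → ℤ → ℤ → ℕ → Prop, Bad = fun A B D (N : ℕ) => ∃ x : ℕ, (Real.log N) ^ C₁ ≤ x ∧
    (x : ℝ) ≤ (N : ℝ) ^ c₂ ∧ ∃ t : ℕ, 1 ≤ t ∧ √((kob A B t x : ℝ) + kobOpp A B t x) * (x : ℝ) ^ ε <
      |(kob (A * D ^ 2) (B * D ^ 3) t x : ℝ) - (kob A B t x + kobOpp A B t x) / 2| := ⟨_, rfl⟩
  have hcnt : ∀ N : ℕ, max N₀ 1 ≤ N → ∀ A B : ℤ,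
      ({D : ℤ | D ≠ 0 ∧ |D| ≤ N ∧ Bad A B D N}.ncard : ℝ) ≤ (N : ℝ) ^ (1 - c₂) := by
    intro N hN A B
    have hN1 : 1 ≤ N := (le_max_right _ _).trans hN
    have hN1' : (1 : ℝ) ≤ N := by exact_mod_cast hN1
    have h1 := hN₀ N ((le_max_left _ _).trans hN) A B
    refine le_trans ?_ (h1.trans (Real.rpow_le_rpow_of_exponent_le hN1' (by linarith)))
    have hfin : {D : ℤ | D ≠ 0 ∧ |D| ≤ N ∧ ∃ x : ℕ, (Real.log N) ^ C₁ ≤ x ∧ (x : ℝ) ≤ (N : ℝ) ^ c₁ ∧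
        ∃ t : ℕ, 1 ≤ t ∧ √((kob A B t x : ℝ) + kobOpp A B t x) * (x : ℝ) ^ ε <
          |(kob (A * D ^ 2) (B * D ^ 3) t x : ℝ) - (kob A B t x + kobOpp A B t x) / 2|}.Finite := by
      apply (Set.finite_Icc (-(N : ℤ)) N).subset
      intro D hD
      exact abs_le.1 hD.2.1
    have h2 : {D : ℤ | D ≠ 0 ∧ |D| ≤ N ∧ Bad A B D N} ⊆ {D : ℤ | D ≠ 0 ∧ |D| ≤ N ∧
        ∃ x : ℕ, (Real.log N) ^ C₁ ≤ x ∧ (x : ℝ) ≤ (N : ℝ) ^ c₁ ∧
        ∃ t : ℕ, 1 ≤ t ∧ √((kob A B t x : ℝ) + kobOpp A B t x) * (x : ℝ) ^ ε <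
          |(kob (A * D ^ 2) (B * D ^ 3) t x : ℝ) - (kob A B t x + kobOpp A B t x) / 2|} := by
      intro D hD
      obtain ⟨h3, h4, h5⟩ := hD
      rw [hBad] at h5
      obtain ⟨x, hx1, hx2, hx3⟩ := h5
      exact ⟨h3, h4, x, hx1, hx2.trans (Real.rpow_le_rpow_of_exponent_le hN1' hc2c), hx3⟩
    exact_mod_cast Set.ncard_le_ncard h2 hfin
  obtain ⟨δ, hδ⟩ : ∃ δ, δ = c₂ / 8 := ⟨_, rfl⟩
  have hδ0 : 0 < δ := by rw [hδ]; positivity
  refine ⟨C₁ + 1, δ, by linarith, hδ0, fun m => ?_⟩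
  obtain ⟨c, hc, hmain⟩ := Pool.Agent.Q84.MB.sym_strings m δ hδ0
  refine ⟨c, hc, fun Z => ?_⟩
  obtain ⟨C, hC⟩ := hmain Z
  obtain ⟨X₀, hX₀⟩ := eventually_atTop.1 ((hC.and (Pool.Agent.Q84.MB.twist_bad Bad c₂ hc20 hc21 _ hcnt)).and
    ((Pool.Agent.Q84.MB.NN_range C₁ c₂ hC₁ hc20 hc21).and (eventually_ge_atTop (1 : ℝ))))
  refine ⟨C, X₀, fun X hX => ?_⟩
  obtain ⟨⟨⟨S, hS1, hS2, hS3⟩, hbad⟩, hrange, hX1⟩ := hX₀ X hX
  refine ⟨S, hS1, hS2, fun f hf => ?_⟩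
  have hP : (((Icc 1 ⌊4 * X⌋₊).filter fun p : ℕ => p.Prime ∧ X < p ∧ ¬ Good ε (C₁ + 1) δ p).card : ℝ) ≤
      X ^ (1 - δ) := by
    refine (hbad _ fun p hp => ?_).trans (Real.rpow_le_rpow_of_exponent_le hX1 (by rw [hδ]; linarith))
    rw [mem_filter, mem_Icc] at hp
    obtain ⟨⟨-, hp4⟩, hpp, hXp, hg⟩ := hp
    have hp4' : (p : ℝ) ≤ 4 * X := (Nat.le_floor_iff (by linarith)).1 hp4
    unfold Good at hg
    push Not at hg
    obtain ⟨A, B, k, hA, hB, hk0, hk, x, hx1, hx2, t, ht0, ht⟩ := hg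
    rw [hδ] at hA hB hk hx2
    obtain ⟨hr1, hr2⟩ := hrange p hXp hp4'
    refine ⟨hpp, hXp, hp4', A, B, k, hA, hB, hk0, hk, ?_⟩
    rw [hBad]
    exact ⟨x, hr1.trans hx1, hx2.trans hr2, t, ht0, ht⟩
  have h3 := hS3 f hf (Good ε (C₁ + 1) δ) hP
  refine h3.trans ?_
  have hsub : ((Icc 1 ⌊3 * X⌋₊).filter fun n : ℕ => X < n ∧
        Pool.Agent.Q84.MB.SymStr m C (c * Real.log X) S f (Good ε (C₁ + 1) δ) n) ⊆
      ((Icc 1 ⌊3 * X⌋₊).filter fun n : ℕ => X < n ∧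
        m ≤ ((Icc n (n + C)).filter Nat.Prime).card ∧
        ∀ p ∈ Icc n (n + C), p.Prime → Good ε (C₁ + 1) δ p ∧
          ∀ q : ℕ, q.Prime → q ≠ 2 → (q : ℝ) ≤ c * Real.log X → q ∉ S → ∀ (A B : ℤ) (t : ℕ),
            Kob (A * p ^ 2) (B * p ^ 3) t q ↔ if f q = 1 then Kob A B t q else KobOpp A B t q) := by
    intro n hn
    rw [mem_filter] at hn ⊢
    obtain ⟨h4, h5, h6, h7⟩ := hn
    refine ⟨h4, h5, h6, fun p hp hpp => ⟨(h7 p hp hpp).1, fun q hq hq2 hqy hqS A B t => ?_⟩⟩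
    have h8 := (h7 p hp hpp).2 q hq hq2 hqy hqS
    rcases hf q with h9 | h9
    · rw [if_pos h9]
      exact kob_one A B p hq hq2 (h8.trans h9) t
    · rw [if_neg (by rw [h9]; decide)]
      exact kob_neg A B p hq hq2 (h8.trans h9) t
  exact_mod_cast card_le_card hsub

end Pool.Agent.Results.MP_b89fd0_nt.TwistsByStringsOfPrimes
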