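import Pool.Agent.Q106.KB.Ref

/-!
# MP_b89fd0_nt: Koblitz's count in the sieved models, uniformly in the curve

`E` is an integral Weierstrass equation, `N_p = pts E p` the number of points of its reduction modulo the (actual) prime `p`,
`Good E p`: `p` is a prime which does not divide the discriminant. The sieved model of level `Q`: a random set `A` which
contains the integers `n ≥ 2` coprime to `Q` independently with probability `(Q / φ(Q)) / log n` (at most `1`), and no others.
`kob A E t x` is the number of the good `p ≤ x` with `N_p / t ∈ A`; for the set of the primes in place of `A` it is the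
function `π_{E,t}(x)` of the question.
-/

set_option autoImplicit false

namespace Pool.Agent.Results.MP_b89fd0_nt.UniformLawAllCurves

open Finset MeasureTheory ProbabilityTheory Filter
open scoped Topology
open Pool.Agent.Q120.GM (IsModel level prodMeasure trueSet)
open Pool.Agent.Q106.KB (pts Good kob pred ht)

/-- **Almost surely Koblitz's count follows its prediction with a power saving, for all curves and all `t` at once.** -/
theorem result :
    (∀ Q : ℕ, IsModel (prodMeasure (level Q)) (level Q) (trueSet (ι := ℕ))) ∧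
    ∀ (Ω : Type) (_ : MeasurableSpace Ω) (μ : Measure Ω) (_ : IsProbabilityMeasure μ) (A : Ω → Set ℕ) (Q : ℕ), 1 ≤ Q →
      IsModel μ (level Q) A →
      ∀ᵐ ω ∂μ, ∀ ε : ℝ, 0 < ε → ∀ᶠ x : ℕ in atTop, ∀ E : WeierstrassCurve ℤ,
        Real.log (ht E) ≤ (x : ℝ) ^ (1 / 2 - 2 * ε) → ∀ t : ℕ, 1 ≤ t →
        |kob (A ω) E t x - pred Q E t x| ≤ (x : ℝ) ^ (3 / 4 + ε) * √(Real.log (ht E)) := by
  refine ⟨fun Q => Pool.Agent.Q120.GM.isModel (level Q) (Pool.Agent.Q120.GM.level_nonneg Q)
    (Pool.Agent.Q120.GM.level_le_one Q), ?_⟩
  intro Ω i μ j A Q hQ hA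
  exact Pool.Agent.Q106.KB.unif hA

end Pool.Agent.Results.MP_b89fd0_nt.UniformLawAllCurves
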